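import Pool.Agent.H56.SK.Final

/-!
# MP_2dcd32_an: multiple recurrence along `a(n)` for all abelian extensions of irrational rotations of the circle

Q1 for a class of systems, all orders `ℓ` at once: if `a(n)` satisfies condition 1 (for nilmanifolds of step at most two
only) and condition 2, then for every abelian extension `(Y, μ, T)` of an irrational rotation of the circle, every `ℓ` and
every `A` of positive measure there is `c > 0` such that
`μ(A ∩ T^(-a(n)) A ∩ ... ∩ T^(-ℓ a(n)) A) ≥ c` for a set of `n` (with `a(n) ≠ 0`) of positive upper density.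
All skew products `(x, y) ↦ (x + α, y + φ(x))` on `𝕋 × G`, `G` any compact (metrizable) abelian group, `φ` any measurable
function, are abelian extensions.
-/

set_option autoImplicit false

namespace Pool.Agent.Results.MP_2dcd32_an.AbelianExtensions

open MeasureTheory Filter Topology Finset Pool.Agent.H56.SK

theorem result :
    (∀ (Y : Type) [MeasurableSpace Y] (μ : Measure Y) [IsProbabilityMeasure μ] (T : Equiv.Perm Y) (p : Y → 𝕋) (α' : ℝ),
      AbExt μ T p α' →
      ∀ a : ℕ → ℤ, NilCond 2 a → (∀ r : ℕ, 0 < r → PosUpper {n | (r : ℤ) ∣ a n}) →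
        ∀ (ℓ : ℕ) (A : Set Y), MeasurableSet A → 0 < μ A →
          ∃ c : ℝ, 0 < c ∧ PosUpper {n | a n ≠ 0 ∧
            c ≤ μ.real (⋂ j ∈ range (ℓ + 1), (T ^ ((j : ℤ) * a n) : Equiv.Perm Y) ⁻¹' A)}) ∧
    (∀ (G : Type) [AddCommGroup G] [TopologicalSpace G] [IsTopologicalAddGroup G] [CompactSpace G] [T2Space G]
      [SecondCountableTopology G] [MeasurableSpace G] [BorelSpace G] (ν : Measure G) [IsProbabilityMeasure ν]
      [ν.IsAddLeftInvariant] (α' : ℝ) (φ : 𝕋 → G), Irrational α' → Measurable φ →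
      AbExt ((volume : Measure 𝕋).prod ν) (skew (α' : 𝕋) φ) Prod.fst α') :=
  ⟨fun _ _ μ _ T p α' hE a h1 h2 ℓ A hA hμ => recurrence μ T p α' hE a h1 h2 ℓ A hA hμ,
    fun _ _ _ _ _ _ _ _ _ ν _ _ _ _ hα hφ => skew_abExt ν hα hφ⟩

end Pool.Agent.Results.MP_2dcd32_an.AbelianExtensions
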