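import Pool.Agent.H71.GS.All

/-!
# MP_2dcd32_an: multiple recurrence along every a(n) for weakly mixing systems with singular
spectrum, or with pairwise independence determinism, and for their products
-/

set_option autoImplicit false

namespace Pool.Agent.Results.MP_2dcd32_an.GenericSystems

open MeasureTheory Filter Topology Finset Pool.Agent.H71.GS

theorem result (Y : Type) [MeasurableSpace Y] [StandardBorelSpace Y] (μ : Measure Y)
    [IsProbabilityMeasure μ] (T : Equiv.Perm Y) (hT : Sys μ T) (hN : Nice μ T)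
    (a : ℕ → ℤ) (ha : Equi a) (ℓ : ℕ) :
    (∀ A : ℕ → Set Y, (∀ j, MeasurableSet (A j)) →
      Tendsto (fun N : ℕ => (∑ n ∈ range N,
        |Corr μ T (a n) ℓ A - ∏ j ∈ range (ℓ + 1), μ.real (A j)|) / (N : ℝ)) atTop (𝓝 0)) ∧
    (∀ B : Set Y, MeasurableSet B → ∀ c : ℝ, c < μ.real B ^ (ℓ + 1) →
      Tendsto (fun N : ℕ => (Nat.card {n : ℕ // n < N ∧ a n ≠ 0 ∧
        c ≤ Corr μ T (a n) ℓ fun _ => B} : ℝ) / N) atTop (𝓝 1)) ∧
    (∀ (Z : Type) [MeasurableSpace Z] (ν : Measure Z) [IsProbabilityMeasure ν]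
      (S : Equiv.Perm Z), Sys ν S → Rec a ν S ℓ → Rec a (μ.prod ν) (prodPerm T S) ℓ) := by
  obtain ⟨hw, hp⟩ := nice_iff μ T hT hN
  have hmain := fun (A : ℕ → Set Y) (hA : ∀ j, MeasurableSet (A j)) =>
    main μ T hT hw hp a ha ℓ A hA
  exact ⟨hmain, fun B hB c hc => density_one μ T a ℓ (zero_density a ha) hmain B hB c hc,
    fun Z _ ν _ S hS hr => rec_prod μ ν T S hT hS a ℓ hmain hr⟩

end Pool.Agent.Results.MP_2dcd32_an.GenericSystems
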