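import Pool.Agent.H71.GS.All6

/-!
# MP_2dcd32_an: multiple recurrence along a(n) lifts through relatively kappa-mixing and through
relatively K extensions
-/

set_option autoImplicit false

namespace Pool.Agent.Results.MP_2dcd32_an.RelativeMixing

open MeasureTheory Filter Topology Finset Pool.Agent.H71.GS

theorem result (Y : Type) [MeasurableSpace Y] [StandardBorelSpace Y] (μ : Measure Y)
    [IsProbabilityMeasure μ] (T : Equiv.Perm Y) (hT : Sys μ T)
    (a : ℕ → ℤ) (ha : Equi a) (ℓ : ℕ) :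
    (∀ (Z : Type) [MeasurableSpace Z] (p : Y → Z) (S : Equiv.Perm Z), Factor μ T p S →
      RelExt μ T p →
      (∀ f : Fin (ℓ + 1) → Y → ℝ, (∀ i, Bd (f i)) → (∃ i, OrthF μ p (f i)) →
        Tendsto (fun N : ℕ => (∑ n ∈ range N,
          |∫ y, ∏ i, f i ((T ^ (((i : ℕ) : ℤ) * a n)) y) ∂μ|) / (N : ℝ)) atTop (𝓝 0)) ∧
      (Rec a (μ.map p) S ℓ → Rec a μ T ℓ)) ∧
    (∀ (G : Type) [AddCommGroup G] [TopologicalSpace G] [IsTopologicalAddGroup G]
      [CompactSpace G] [T2Space G] [SecondCountableTopology G] [MeasurableSpace G]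
      [BorelSpace G] (p : Y → G) (α : G), Factor μ T p (Equiv.addRight α) →
      (μ.map p).IsAddLeftInvariant → RelExt μ T p →
      ∀ A : Set Y, MeasurableSet A → ∀ c : ℝ, c < μ.real A ^ (ℓ + 1) →
        (Cond2 a → PosUpper fun n => a n ≠ 0 ∧ c ≤ Corr μ T (a n) ℓ fun _ => A) ∧
        (TotErg (μ.map p) (Equiv.addRight α) → ∃ d : ℝ, 0 < d ∧ ∀ᶠ N : ℕ in atTop, d * N ≤
          (Nat.card {n : ℕ // n < N ∧ a n ≠ 0 ∧ c ≤ Corr μ T (a n) ℓ fun _ => A} : ℝ))) :=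
  ⟨fun _ _ p S hF hE => ⟨charac μ T hT p S hF hE a ha ℓ,
      ext_lift μ T hT p S hF hE a ha ℓ⟩,
    fun _ _ _ _ _ _ _ _ _ p α hF hinv hE A hA c hc =>
      ⟨fun h2 => ext_rot_upper μ T hT p α hF hinv hE a ha h2 ℓ A hA c hc,
        fun he => ext_rot μ T hT p α hF hinv he hE a ha ℓ A hA c hc⟩⟩

end Pool.Agent.Results.MP_2dcd32_an.RelativeMixing
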