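import Pool.Agent.H71.GS.All5

/-!
# MP_2dcd32_an: triple recurrence along every a(n) for totally ergodic systems with singular
spectrum outside a factor
-/

set_option autoImplicit false

namespace Pool.Agent.Results.MP_2dcd32_an.SingularTriples

open MeasureTheory Filter Topology Finset Pool.Agent.H71.GS

theorem result (Y : Type) [MeasurableSpace Y] [StandardBorelSpace Y] (μ : Measure Y)
    [IsProbabilityMeasure μ] (T : Equiv.Perm Y) (hT : Sys μ T) (he : TotErg μ T)
    (a : ℕ → ℤ) (ha : Equi a) :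
    (∀ f : Fin 3 → Y → ℝ, (∀ i, Bd (f i)) → (∃ i, SingFn μ T (f i)) →
      Tendsto (fun N : ℕ => (∑ n ∈ range N,
        |∫ y, f 0 y * f 1 ((T ^ a n) y) * f 2 ((T ^ (2 * a n)) y) ∂μ|) / (N : ℝ))
          atTop (𝓝 0)) ∧
    (∀ (Z : Type) [MeasurableSpace Z] (p : Y → Z) (S : Equiv.Perm Z), Factor μ T p S →
      SingOver μ T p → Rec a (μ.map p) S 2 → Rec a μ T 2) ∧
    (∀ (G : Type) [AddCommGroup G] [TopologicalSpace G] [IsTopologicalAddGroup G]
      [CompactSpace G] [T2Space G] [SecondCountableTopology G] [MeasurableSpace G]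
      [BorelSpace G] (p : Y → G) (α : G), Factor μ T p (Equiv.addRight α) → SingOver μ T p →
      (μ.map p).IsAddLeftInvariant → ∀ A : Set Y, MeasurableSet A →
      ∀ c : ℝ, c < μ.real A ^ 3 → ∃ d : ℝ, 0 < d ∧ ∀ᶠ N : ℕ in atTop,
        d * N ≤ (Nat.card {n : ℕ // n < N ∧ a n ≠ 0 ∧
          c ≤ Corr μ T (a n) 2 fun _ => A} : ℝ)) :=
  ⟨fun f hf hs => char2 μ T hT he a ha f hf hs,
    fun _ _ p S hF hs hr => rec_lift μ T hT he p S hF hs a ha hr,
    fun _ _ _ _ _ _ _ _ _ p α hF hs hinv A hA c hc =>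
      sing_rot μ T hT he p α hF hs hinv a ha A hA c hc⟩

end Pool.Agent.Results.MP_2dcd32_an.SingularTriples
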